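import Pool.Agent.J6H28.FM.Rel
import Pool.Agent.W602.GT.SpDefs

/-!
# Curves of genus at most one and bounded degree: parametrizations of bounded degree
-/

set_option autoImplicit false
set_option linter.overlappingInstances false

namespace Pool.Agent.J6H28.FM

open FF Polynomial Pool.Agent.W603.LV
open Pool.Agent.W602.GT (coords)
open Pool.Agent.W603.PV (pht pord pord_le exists_pord)

/-- the height of a quotient of coordinates is at most the height of the point -/
theorem hgt_ratio {L : Type} [Field L] [Algebra ℂ L] [IsFF ℂ L] {n : ℕ} (f : Fin (n + 1) → L)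
    {j l : Fin (n + 1)} (hj : f j ≠ 0) (hl : f l ≠ 0) : hgt ℂ (f j / f l) ≤ pht ℂ f := by
  classical
  obtain ⟨T, hT⟩ := exists_supp (k := ℂ) Finset.univ f
  have h1 : ∀ j, ∀ P : Place ℂ L, P.ord (f j) ≠ 0 → P ∈ T := fun j => hT j (Finset.mem_univ j)
  have h1' : ∀ P : Place ℂ L, P.ord (f j / f l) ≠ 0 → P ∈ T := by
    intro P hP
    by_contra hcon
    apply hP
    have h2 : P.ord (f j) = 0 := by by_contra h; exact hcon (h1 j P h)
    have h3 : P.ord (f l) = 0 := by by_contra h; exact hcon (h1 l P h)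
    rw [P.ord_div hj hl, h2, h3]; rfl
  have h2 : pht ℂ f = ∑ P ∈ T, (- pord P f) := by
    unfold pht
    rw [finsum_eq_sum_of_support_subset (s := T), Finset.sum_neg_distrib]
    intro P hP
    by_contra hcon
    apply hP
    obtain ⟨j, hj, h⟩ := exists_pord P ⟨l, hl⟩
    simp only
    rw [← h]
    by_contra h'; exact hcon (h1 j P h')
  have h3 : ∑ P ∈ T, P.ord (f l) = 0 := sum_ord_finset _ T (h1 l)
  have h4 : ∑ P ∈ T, (- pord P f) = ∑ P ∈ T, (- pord P f + P.ord (f l)) := by
    rw [Finset.sum_add_distrib, h3, add_zero]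
  rw [h2, h4, hgt_finset _ T h1']
  refine Finset.sum_le_sum fun P _ => ?_
  have h5 := pord_le P hj
  have h6 := pord_le P hl
  rw [P.ord_div hj hl]
  refine max_le ?_ ?_ <;> omega

/-- scaling of the homogeneous coordinates -/
theorem scale {β : Type} {M : ℕ} {K : Type} [Field K] [Algebra ℂ K] (b : β → K)
    (z : Fin (M + 1) → K) (l : K) {F : MvPolynomial (β ⊕ Fin (M + 1)) ℂ} {e : ℕ}
    (hF : MvPolynomial.IsWeightedHomogeneous
      (Sum.elim (fun _ => 0) (fun _ => 1) : β ⊕ Fin (M + 1) → ℕ) F e) :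
    MvPolynomial.aeval (Sum.elim b fun i => l * z i) F =
      l ^ e * MvPolynomial.aeval (Sum.elim b z) F := by
  rw [MvPolynomial.aeval_def, MvPolynomial.aeval_def, MvPolynomial.eval₂_eq,
    MvPolynomial.eval₂_eq, Finset.mul_sum]
  refine Finset.sum_congr rfl fun d hd => ?_
  have hw := hF (MvPolynomial.mem_support_iff.1 hd)
  rw [Finsupp.weight_apply, Finsupp.sum] at hw
  have h1 : ∀ s : β ⊕ Fin (M + 1), Sum.elim b (fun i => l * z i) s =
      l ^ ((Sum.elim (fun _ => 0) (fun _ => 1) : β ⊕ Fin (M + 1) → ℕ) s) * Sum.elim b z s := by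
    rintro (s | s) <;> simp
  have h2 : ∏ i ∈ d.support, Sum.elim b (fun i => l * z i) i ^ d i =
      l ^ e * ∏ i ∈ d.support, Sum.elim b z i ^ d i := by
    rw [← hw, ← Finset.prod_pow_eq_pow_sum, ← Finset.prod_mul_distrib]
    refine Finset.prod_congr rfl fun s _ => ?_
    rw [h1 s, mul_pow, ← pow_mul, smul_eq_mul, mul_comm (d s)]
  rw [h2]
  ring

/-- a polynomial which vanishes at the generic point vanishes on the curve -/
theorem kern {K : Type} [Field K] [Algebra ℂ K] {x y : K} {a b : ℂ}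
    (hxy : y ^ 2 = x ^ 3 + algebraMap ℂ K a * x + algebraMap ℂ K b)
    (hind : ∀ A B : ℂ[X], aeval x A + aeval x B * y = 0 → A = 0 ∧ B = 0)
    (H : ℂ[X][X]) (hH : H.eval₂ (aeval x : ℂ[X] →ₐ[ℂ] K).toRingHom y = 0) {x0 y0 : ℂ}
    (h0 : y0 ^ 2 = x0 ^ 3 + a * x0 + b) : H.eval₂ (evalRingHom x0) y0 = 0 := by
  set q : ℂ[X][X] := X ^ 2 - C (X ^ 3 + C a * X + C b) with hq
  have hqm : q.Monic := monic_X_pow_sub_C _ two_ne_zero
  have hq1 : q.eval₂ (aeval x : ℂ[X] →ₐ[ℂ] K).toRingHom y = 0 := by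
    rw [hq, eval₂_sub, eval₂_pow, eval₂_X, eval₂_C, hxy]
    simp
  have hq2 : q.eval₂ (evalRingHom x0) y0 = 0 := by
    rw [hq, eval₂_sub, eval₂_pow, eval₂_X, eval₂_C, h0]
    simp
  have hdiv := modByMonic_add_div H q
  have hdeg : (H %ₘ q).natDegree ≤ 1 := by
    have h1 : (H %ₘ q).natDegree < q.natDegree := by
      refine natDegree_modByMonic_lt H hqm ?_
      intro h2
      have h3 : q.natDegree = 2 := natDegree_X_pow_sub_C
      rw [h2, natDegree_one] at h3
      norm_num at h3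
    rw [hq, natDegree_X_pow_sub_C] at h1
    rw [← hq] at h1
    omega
  obtain ⟨B, A, hAB⟩ := exists_eq_X_add_C_of_natDegree_le_one hdeg
  have h1 : (H %ₘ q).eval₂ (aeval x : ℂ[X] →ₐ[ℂ] K).toRingHom y = 0 := by
    have h2 := congrArg (fun p : ℂ[X][X] => p.eval₂ (aeval x : ℂ[X] →ₐ[ℂ] K).toRingHom y) hdiv
    simp only [eval₂_add, eval₂_mul, hq1, hH, zero_mul, add_zero] at h2
    exact h2
  rw [hAB] at h1
  simp only [eval₂_add, eval₂_mul, eval₂_C, eval₂_X] at h1
  obtain ⟨hA, hB⟩ := hind A B (by rw [add_comm]; exact h1)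
  have h2 : H %ₘ q = 0 := by rw [hAB, hA, hB]; simp
  rw [← hdiv, h2, zero_add, eval₂_mul, hq2, zero_mul]

/-- the curve of the equation `y ^ 2 = x ^ 3 + a x + b` has points over every `x` -/
theorem exists_pt (a b x : ℂ) : ∃ y : ℂ, y ^ 2 = x ^ 3 + a * x + b :=
  IsAlgClosed.exists_pow_nat_eq _ two_pos

/-- a point which is not constant -/
theorem nonconst {M : ℕ} {K : Type} [Field K] [Algebra ℂ K] {z : Fin (M + 1) → K} {j0 : Fin (M + 1)}
    (hj0 : z j0 ≠ 0) (hgen : coords ℂ z = ⊤) {x y : K} (hx : Transcendental ℂ x) (a b : ℂ)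
    {N : ℂ[X]} (hN : N ≠ 0) {P Q : Fin (M + 1) → ℂ[X]}
    (h : ∀ i, aeval x N * (z i / z j0) = aeval x (P i) + aeval x (Q i) * y) (hP : P j0 = N)
    (hQ : Q j0 = 0) : ∃ (i j : Fin (M + 1)) (x y x' y' : ℂ), y ^ 2 = x ^ 3 + a * x + b ∧
      y' ^ 2 = x' ^ 3 + a * x' + b ∧
      ((P i).eval x + (Q i).eval x * y) * ((P j).eval x' + (Q j).eval x' * y') ≠
        ((P j).eval x + (Q j).eval x * y) * ((P i).eval x' + (Q i).eval x' * y') := by
  by_contra hcon
  push Not at hcon
  have hinj : Function.Injective (aeval x : ℂ[X] →ₐ[ℂ] K) := transcendental_iff_injective.1 hx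
  have hNx : aeval x N ≠ 0 := by
    intro h0
    exact hN (hinj (h0.trans (map_zero _).symm))
  obtain ⟨x1, hx1⟩ : ∃ x1 : ℂ, N.eval x1 ≠ 0 := by
    by_contra h0
    push Not at h0
    exact hN (Polynomial.funext fun r => by rw [h0 r, eval_zero])
  obtain ⟨y1, hy1⟩ := exists_pt a b x1
  have key : ∀ i, ∃ c : ℂ, z i / z j0 = algebraMap ℂ K c := by
    intro i
    set n1 : ℂ := (P i).eval x1 + (Q i).eval x1 * y1 with hn1
    have h1 : ∀ x0 y0 : ℂ, y0 ^ 2 = x0 ^ 3 + a * x0 + b →
        ((P i).eval x0 + (Q i).eval x0 * y0) * N.eval x1 = N.eval x0 * n1 := by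
      intro x0 y0 h0
      have h2 := hcon i j0 x0 y0 x1 y1 h0 hy1
      rw [hP, hQ] at h2
      simpa using h2
    have h2 : ∀ x0 : ℂ, (P i).eval x0 * N.eval x1 = N.eval x0 * n1 ∧
        (Q i).eval x0 * (x0 ^ 3 + a * x0 + b) = 0 := by
      intro x0
      obtain ⟨y0, hy0⟩ := exists_pt a b x0
      have e1 := h1 x0 y0 hy0
      have e2 := h1 x0 (-y0) (by rw [← hy0]; ring)
      have e3 : (P i).eval x0 * N.eval x1 = N.eval x0 * n1 := by
        linear_combination (e1 + e2) / 2
      refine ⟨e3, ?_⟩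
      have e4 : (Q i).eval x0 * y0 * N.eval x1 = 0 := by
        linear_combination (e1 - e2) / 2
      have e5 : (Q i).eval x0 * y0 = 0 := (mul_eq_zero.1 e4).resolve_right hx1
      rw [← hy0]
      linear_combination y0 * e5
    have hPi : P i = C (n1 / N.eval x1) * N := by
      refine Polynomial.funext fun r => ?_
      rw [eval_mul, eval_C, div_mul_eq_mul_div, eq_div_iff hx1, (h2 r).1]
      ring
    have hQi : Q i = 0 := by
      have h3 : Q i * (X ^ 3 + C a * X + C b) = 0 := by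
        refine Polynomial.funext fun r => ?_
        rw [eval_mul, eval_zero, eval_add, eval_add, eval_mul, eval_pow, eval_X, eval_C, eval_C]
        exact (h2 r).2
      rcases mul_eq_zero.1 h3 with h4 | h4
      · exact h4
      · exfalso
        have h5 := congrArg (fun p : ℂ[X] => p.coeff 3) h4
        simp at h5
    refine ⟨n1 / N.eval x1, ?_⟩
    have h3 := h i
    rw [hPi, hQi, map_zero, zero_mul, add_zero, map_mul, aeval_C] at h3
    exact mul_left_cancel₀ hNx (by rw [h3]; ring)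
  have hbot : coords ℂ z ≤ ⊥ := by
    refine IntermediateField.adjoin_le_iff.2 ?_
    rintro w ⟨i, j, hj, rfl⟩
    obtain ⟨c, hc⟩ := key i
    obtain ⟨d, hd⟩ := key j
    have e : z i / z j = (z i / z j0) / (z j / z j0) := by
      field_simp
    rw [e, hc, hd, ← map_div₀]
    exact IntermediateField.algebraMap_mem _ _
  rw [hgen] at hbot
  have h1 : x ∈ (⊥ : IntermediateField ℂ K) := hbot IntermediateField.mem_top
  obtain ⟨c, hc⟩ := IntermediateField.mem_bot.1 h1
  apply hx
  rw [← hc]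
  exact isAlgebraic_algebraMap c

/-- a common denominator -/
theorem clear {M : ℕ} {K : Type} [Field K] [Algebra ℂ K] {x y : K} {u : Fin (M + 1) → K} {d : ℕ}
    {P Q R : Fin (M + 1) → ℂ[X]} (hR : ∀ i, R i ≠ 0)
    (hd : ∀ i, (P i).natDegree ≤ d ∧ (Q i).natDegree ≤ d ∧ (R i).natDegree ≤ d)
    (h : ∀ i, aeval x (R i) * u i = aeval x (P i) + aeval x (Q i) * y) :
    ∃ (N : ℂ[X]) (P' Q' : Fin (M + 1) → ℂ[X]), N ≠ 0 ∧
      (∀ i, (P' i).natDegree ≤ (M + 1) * d ∧ (Q' i).natDegree ≤ (M + 1) * d) ∧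
      (∀ i, aeval x N * u i = aeval x (P' i) + aeval x (Q' i) * y) ∧
      ∀ i, Q i = 0 → Q' i = 0 := by
  classical
  refine ⟨∏ l, R l, fun i => (∏ l ∈ Finset.univ.erase i, R l) * P i,
    fun i => (∏ l ∈ Finset.univ.erase i, R l) * Q i, Finset.prod_ne_zero_iff.2 fun i _ => hR i,
    fun i => ?_, fun i => ?_, fun i hi => by
      show _ * Q i = 0
      rw [hi, mul_zero]⟩
  · have h1 : (∏ l ∈ Finset.univ.erase i, R l).natDegree ≤ M * d := by
      refine (natDegree_prod_le _ _).trans ?_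
      refine (Finset.sum_le_card_nsmul _ _ d fun l _ => (hd l).2.2).trans ?_
      rw [Finset.card_erase_of_mem (Finset.mem_univ i), Finset.card_univ, Fintype.card_fin,
        smul_eq_mul]
      simp
    constructor
    · refine natDegree_mul_le.trans ?_
      have h2 := (hd i).1
      nlinarith
    · refine natDegree_mul_le.trans ?_
      have h2 := (hd i).2.1
      nlinarith
  · rw [← Finset.mul_prod_erase _ _ (Finset.mem_univ i), map_mul, map_mul, map_mul]
    linear_combination (aeval x (∏ l ∈ Finset.univ.erase i, R l)) * h i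

/-- **Curves of genus at most one and of bounded degree.** -/
theorem core {M A : ℕ} {K : Type} [Field K] [Algebra ℂ K] [IsFF ℂ K] {z : Fin (M + 1) → K}
    (hz : z ≠ 0) (hgen : coords ℂ z = ⊤) (hc : canDeg ℂ K ≤ 0) (hA : pht ℂ z ≤ A) :
    ∃ (a b : ℂ) (P Q : Fin (M + 1) → ℂ[X]), 4 * a ^ 3 + 27 * b ^ 2 ≠ 0 ∧
    (∀ i, (P i).natDegree ≤ (M + 1) * (A + 2) ∧ (Q i).natDegree ≤ (M + 1) * (A + 2)) ∧
    (∀ (β : Type) (c : β → ℂ) (F : MvPolynomial (β ⊕ Fin (M + 1)) ℂ) (e : ℕ),
      MvPolynomial.IsWeightedHomogeneous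
        (Sum.elim (fun _ => 0) (fun _ => 1) : β ⊕ Fin (M + 1) → ℕ) F e →
      MvPolynomial.aeval (Sum.elim (fun i => algebraMap ℂ K (c i)) z) F = 0 →
      ∀ x y : ℂ, y ^ 2 = x ^ 3 + a * x + b →
        MvPolynomial.eval (Sum.elim c fun i => (P i).eval x + (Q i).eval x * y) F = 0) ∧
    ∃ (i j : Fin (M + 1)) (x y x' y' : ℂ), y ^ 2 = x ^ 3 + a * x + b ∧
      y' ^ 2 = x' ^ 3 + a * x' + b ∧
      ((P i).eval x + (Q i).eval x * y) * ((P j).eval x' + (Q j).eval x' * y') ≠
        ((P j).eval x + (Q j).eval x * y) * ((P i).eval x' + (Q i).eval x' * y') := by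
  obtain ⟨j0, hj0⟩ : ∃ j0, z j0 ≠ 0 := by
    by_contra h
    push Not at h
    exact hz (funext h)
  have hu : ∀ i, hgt ℂ (z i / z j0) ≤ A := by
    intro i
    by_cases hi : z i = 0
    · rw [hi, zero_div, hgt_zero]
      positivity
    · exact (hgt_ratio z hi hj0).trans hA
  rcases lt_or_eq_of_le hc with h0 | h0
  · -- the rational case
    obtain ⟨t, ht⟩ := Pool.Agent.TH143.GE.rational_of_neg h0
    obtain ⟨htr, hrep⟩ := rep_rat ht
    choose P R hR hPd hRd hPR using fun i => hrep A _ (hu i)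
    obtain ⟨N, P', Q', hN, hd, hrel, hQ⟩ := clear (x := t) (y := (0 : K))
      (u := fun i => z i / z j0) (d := A + 2) (P := P) (Q := fun _ => 0) (R := R) hR
      (fun i => ⟨(hPd i).trans (by omega), by simp, (hRd i).trans (by omega)⟩)
      (fun i => by rw [hPR i]; simp)
    have hQ' : ∀ i, Q' i = 0 := fun i => hQ i rfl
    have hinj : Function.Injective (aeval t : ℂ[X] →ₐ[ℂ] K) := transcendental_iff_injective.1 htr
    refine ⟨0, 1, P', Q', by norm_num, hd, ?_, ?_⟩
    · intro β c F e hF hF0 x y _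
      have h1 := scale (fun i => algebraMap ℂ K (c i)) z (aeval t N / z j0) hF
      rw [hF0, mul_zero] at h1
      have h2 : ∀ i, aeval t N / z j0 * z i = aeval t (P' i) := by
        intro i
        have h3 := hrel i
        rw [hQ' i, mul_zero, add_zero] at h3
        rw [← h3]
        ring
      simp only [h2] at h1
      set G : ℂ[X] := MvPolynomial.aeval (Sum.elim (fun i => C (c i)) P') F with hG
      have h4 : aeval t G = 0 := by
        rw [← h1, hG, MvPolynomial.comp_aeval_apply]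
        congr 2
        funext s
        rcases s with s | s <;> simp
      have h5 : G = 0 := hinj (h4.trans (map_zero _).symm)
      have h6 : aeval x G = MvPolynomial.eval (Sum.elim c fun i => (P' i).eval x) F := by
        rw [hG, MvPolynomial.comp_aeval_apply, MvPolynomial.aeval_def, MvPolynomial.eval,
          MvPolynomial.coe_eval₂Hom]
        congr 1
        funext s
        rcases s with s | s <;> simp
      rw [h5, map_zero] at h6
      simp only [hQ', eval_zero, zero_mul, add_zero]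
      exact h6.symm
    · refine nonconst hj0 hgen htr 0 1 hN hrel ?_ (hQ' j0)
      have h3 := hrel j0
      rw [hQ' j0, mul_zero, add_zero, div_self hj0, mul_one] at h3
      exact (hinj h3).symm
  · -- genus one
    obtain ⟨x, y, a, b, hdisc, hx, hxy, hind, hhx, hhy⟩ := ell_data h0
    choose P Q R hR hPd hQd hRd hPQ using fun i => rep_ell hind hhx hhy (hu i)
    obtain ⟨N, P', Q', hN, hd, hrel, -⟩ := clear (x := x) (y := y)
      (u := fun i => z i / z j0) (d := A + 2) (P := P) (Q := Q) (R := R) hR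
      (fun i => ⟨hPd i, hQd i, hRd i⟩) hPQ
    have hj : P' j0 = N ∧ Q' j0 = 0 := by
      have h3 := hrel j0
      rw [div_self hj0, mul_one] at h3
      obtain ⟨h4, h5⟩ := hind (P' j0 - N) (Q' j0) (by rw [map_sub]; linear_combination -h3)
      exact ⟨sub_eq_zero.1 h4, h5⟩
    refine ⟨a, b, P', Q', hdisc, hd, ?_, nonconst hj0 hgen hx a b hN hrel hj.1 hj.2⟩
    intro β c F e hF hF0 x0 y0 h0
    have h1 := scale (fun i => algebraMap ℂ K (c i)) z (aeval x N / z j0) hF
    rw [hF0, mul_zero] at h1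
    have h2 : ∀ i, aeval x N / z j0 * z i = aeval x (P' i) + aeval x (Q' i) * y := by
      intro i
      rw [← hrel i]
      ring
    simp only [h2] at h1
    set G : ℂ[X][X] := MvPolynomial.eval₂ (C.comp C)
      (Sum.elim (fun i => C (C (c i))) fun i => C (P' i) + C (Q' i) * X) F with hG
    have h4 : G.eval₂ (aeval x : ℂ[X] →ₐ[ℂ] K).toRingHom y = 0 := by
      rw [← h1, hG, ← coe_eval₂RingHom, MvPolynomial.hom_eval₂, MvPolynomial.aeval_def]
      congr 1
      · ext r
        simp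
      · funext s
        rcases s with s | s <;> simp
    have h5 := kern hxy hind G h4 h0
    rw [hG, ← coe_eval₂RingHom, MvPolynomial.hom_eval₂] at h5
    rw [← h5, MvPolynomial.eval, MvPolynomial.coe_eval₂Hom]
    congr 1
    · ext r
      simp
    · funext s
      rcases s with s | s <;> simp

end Pool.Agent.J6H28.FM
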