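import Pool.Agent.J6H55.FM.Stm
import Pool.Agent.J6H28.FM.Core

/-!
# Module FM-PAR: curves of genus at most one and bounded degree have parametrizations of bounded degree
-/

set_option autoImplicit false
set_option linter.overlappingInstances false

namespace Pool.Agent.J6H28.FM

theorem par : Pool.Agent.J6H55.FM.S_par := by
  intro M A
  refine ⟨(M + 1) * (A + 2), ?_⟩
  intro β _ FF hFF c E _ _ _ z hz hgen hc hA hin
  obtain ⟨a, b, P, Q, h1, h2, h3, h4⟩ := core hz hgen hc hA
  refine ⟨a, b, P, Q, h1, h2, ?_, h4⟩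
  intro F hF x y hxy
  obtain ⟨e, he⟩ := hFF F hF
  exact h3 β c F e he (hin F hF) x y hxy

end Pool.Agent.J6H28.FM
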