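import Pool.Agent.W603.PV.Ext
import Pool.Agent.TH143.GE.Wei

/-!
# Functions of bounded height on curves of genus at most one
-/

set_option autoImplicit false
set_option linter.overlappingInstances false

namespace Pool.Agent.J6H28.FM

open FF Polynomial Module Pool.Agent.W603.LV
open scoped IntermediateField

section Rel

variable {k K : Type} [Field k] [Field K] [Algebra k K] [IsAlgClosed k] [CharZero k] [IsFF k K]

theorem hgt_eq_ddeg (f : K) : hgt k f = ddeg (polar (k := k) f) := by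
  by_cases hf : IsAlgebraic k f
  · rw [Pool.Agent.W603.PV.hgt_algebraic hf]
    have h1 : polar (k := k) f = 0 := by
      ext P
      rw [polar_apply]
      by_cases hf0 : f = 0
      · rw [hf0, P.ord_zero]; rfl
      · rw [P.ord_eq_zero_of_isAlgebraic hf0 hf]; rfl
    rw [h1, ddeg_zero]
  · rw [Pool.Agent.W603.PV.hgt_eq_finrank hf, ddeg_polar hf]

theorem ell_le_deg (D : Place k K →₀ ℤ) (hD : 0 ≤ ddeg D) : ell D ≤ ddeg D + 1 := by
  classical
  obtain ⟨P, -⟩ := exists_place (k := k) (K := K)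
  have h1 : ddeg (D - Finsupp.single P (ddeg D + 1)) = -1 := by
    rw [ddeg_sub, ddeg_single, deg_one]
    push_cast
    ring
  have h2 : ell (D - Finsupp.single P (ddeg D + 1)) = 0 := by
    unfold ell
    rw [LL_eq_bot (by rw [h1]; norm_num), finrank_bot]
    rfl
  have h3 : D - Finsupp.single P (ddeg D + 1) ≤ D := by
    intro Q
    rw [Finsupp.sub_apply]
    have : 0 ≤ (Finsupp.single P (ddeg D + 1)) Q := by
      rw [Finsupp.single_apply]
      split_ifs <;> omega
    omega
  have h4 := ell_le h3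
  rw [h1, h2] at h4
  omega

/-- polynomial relations of bounded degree between functions of bounded height -/
theorem rel {r : ℕ} (x : K) (g : Fin r → K) (a : ℕ)
    (h : (a : ℤ) * hgt k x + ∑ j, hgt k (g j) + 1 < r * (a + 1)) :
    ∃ P : Fin r → k[X], (∃ j, P j ≠ 0) ∧ (∀ j, (P j).natDegree ≤ a) ∧
      ∑ j, aeval x (P j) * g j = 0 := by
  classical
  set D : Place k K →₀ ℤ := a • polar x + ∑ j, polar (g j) with hD
  have hdeg : ddeg D = a * hgt k x + ∑ j, hgt k (g j) := by
    rw [hD, ddeg_add, ddeg_nsmul, hgt_eq_ddeg]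
    congr 1
    have h1 : ∀ s : Finset (Fin r), ddeg (∑ j ∈ s, polar (k := k) (g j)) = ∑ j ∈ s, hgt k (g j) := by
      intro s
      induction s using Finset.induction_on with
      | empty => simp [ddeg_zero]
      | insert i s hi ih => rw [Finset.sum_insert hi, Finset.sum_insert hi, ddeg_add, ih, hgt_eq_ddeg]
    exact h1 _
  have hmem : ∀ p : Fin r × Fin (a + 1), x ^ (p.2 : ℕ) * g p.1 ∈ LL D := by
    intro p
    rw [mem_LL]
    by_cases h0 : x ^ (p.2 : ℕ) * g p.1 = 0
    · exact Or.inl h0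
    right
    intro P
    have h1 : x ^ (p.2 : ℕ) ≠ 0 := left_ne_zero_of_mul h0
    have h2 : g p.1 ≠ 0 := right_ne_zero_of_mul h0
    rw [P.ord_mul h1 h2, P.ord_pow]
    have h3 : D P = a * max (-P.ord x) 0 + ∑ j, max (-P.ord (g j)) 0 := by
      rw [hD, Finsupp.add_apply, Finsupp.smul_apply, Finsupp.finsetSum_apply, polar_apply, nsmul_eq_mul]
      congr 1
    have h4 : max (-P.ord (g p.1)) 0 ≤ ∑ j, max (-P.ord (g j)) 0 :=
      Finset.single_le_sum (f := fun j => max (-P.ord (g j)) 0) (fun _ _ => le_max_right _ _)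
        (Finset.mem_univ p.1)
    have h5 : ((p.2 : ℕ) : ℤ) ≤ a := by
      have h9 := p.2.2
      have h10 : (p.2 : ℕ) ≤ a := by omega
      exact_mod_cast h10
    have h6 : ((p.2 : ℕ) : ℤ) * max (-P.ord x) 0 ≤ a * max (-P.ord x) 0 :=
      mul_le_mul_of_nonneg_right h5 (le_max_right _ _)
    have h7 : ((p.2 : ℕ) : ℤ) * (-P.ord x) ≤ ((p.2 : ℕ) : ℤ) * max (-P.ord x) 0 :=
      mul_le_mul_of_nonneg_left (le_max_left _ _) (by positivity)
    have h8 := le_max_left (-P.ord (g p.1)) 0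
    rw [h3]
    linarith
  let v : Fin r × Fin (a + 1) → LL D := fun p => ⟨x ^ (p.2 : ℕ) * g p.1, hmem p⟩
  have hnot : ¬ LinearIndependent k v := by
    intro hli
    have h1 := hli.fintype_card_le_finrank
    have h2 := ell_le_deg D (by
      rw [hdeg]
      have h3 : 0 ≤ (a : ℤ) * hgt k x := mul_nonneg (by positivity) (hgt_nonneg _)
      have h4 : 0 ≤ ∑ j, hgt k (g j) := Finset.sum_nonneg fun j _ => hgt_nonneg _
      linarith)
    unfold ell at h2
    rw [hdeg] at h2
    rw [Fintype.card_prod, Fintype.card_fin, Fintype.card_fin] at h1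
    have h3 : ((r * (a + 1) : ℕ) : ℤ) ≤ finrank k (LL D) := by exact_mod_cast h1
    push_cast at h3
    linarith
  rw [Fintype.not_linearIndependent_iff] at hnot
  obtain ⟨c, hc, i, hi⟩ := hnot
  refine ⟨fun j => ∑ l : Fin (a + 1), C (c (j, l)) * X ^ (l : ℕ), ⟨i.1, ?_⟩, ?_, ?_⟩
  · intro h0
    apply hi
    have h1 := congrArg (fun p : k[X] => p.coeff (i.2 : ℕ)) h0
    simp only [finsetSum_coeff, coeff_C_mul_X_pow, coeff_zero] at h1
    rw [Finset.sum_eq_single i.2] at h1
    · simpa using h1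
    · intro b _ hb
      rw [if_neg]
      intro h2
      exact hb (Fin.ext h2.symm)
    · intro h2
      exact absurd (Finset.mem_univ _) h2
  · intro j
    refine natDegree_sum_le_of_forall_le _ _ fun l _ => ?_
    exact (natDegree_C_mul_X_pow_le _ _).trans (by have := l.2; omega)
  · have h1 := congrArg (fun z : LL D => (z : K)) hc
    simp only [Submodule.coe_sum, Submodule.coe_smul, Submodule.coe_zero, v] at h1
    rw [Fintype.sum_prod_type] at h1
    rw [← h1]
    refine Finset.sum_congr rfl fun j _ => ?_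
    rw [map_sum, Finset.sum_mul]
    refine Finset.sum_congr rfl fun l _ => ?_
    rw [map_mul, aeval_C, map_pow, aeval_X, Algebra.smul_def]
    ring

end Rel

/-! ### Curves of genus one -/

/-- the discriminant of a cubic without double roots -/
theorem disc_ne {a b : ℂ} (h : ∀ e : ℂ, e ^ 3 + a * e + b = 0 → 3 * e ^ 2 + a ≠ 0) :
    4 * a ^ 3 + 27 * b ^ 2 ≠ 0 := by
  intro h0
  by_cases ha : a = 0
  · subst ha
    have hb : b = 0 := by
      have h1 : b ^ 2 = 0 := by linear_combination h0 / 27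
      exact pow_eq_zero_iff two_ne_zero |>.1 h1
    subst hb
    exact h 0 (by ring) (by ring)
  · have h2 : (2 * a) ≠ 0 := mul_ne_zero two_ne_zero ha
    refine h (-(3 * b) / (2 * a)) ?_ ?_
    · field_simp
      linear_combination (-b) * h0
    · field_simp
      linear_combination h0

variable {K : Type} [Field K] [Algebra ℂ K] [IsFF ℂ K]

/-- the field of a curve of genus one -/
theorem ell_data (h0 : canDeg ℂ K = 0) : ∃ (x y : K) (a b : ℂ), 4 * a ^ 3 + 27 * b ^ 2 ≠ 0 ∧
    Transcendental ℂ x ∧ y ^ 2 = x ^ 3 + algebraMap ℂ K a * x + algebraMap ℂ K b ∧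
    (∀ A B : ℂ[X], aeval x A + aeval x B * y = 0 → A = 0 ∧ B = 0) ∧
    hgt ℂ x ≤ 2 ∧ hgt ℂ y ≤ 3 := by
  obtain ⟨x, y, a, b, hx, hxy, hind, hgen, hroot⟩ := Pool.Agent.TH143.GE.weier (k := ℂ) (F := K) h0
  have hy0 : y ≠ 0 := by
    rintro rfl
    have h1 := (hind 0 1 (by simp)).2
    exact one_ne_zero h1
  have htop2 : IntermediateField.adjoin ℂ {x, y} = ⊤ := by
    rw [eq_top_iff]
    intro f _
    obtain ⟨r, s, hf⟩ := hgen f
    have key : ∀ p : MvPolynomial (Fin 2) ℂ,
        MvPolynomial.aeval ![x, y] p ∈ IntermediateField.adjoin ℂ ({x, y} : Set K) := by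
      intro p
      have h1 : MvPolynomial.aeval ![x, y] p ∈ Algebra.adjoin ℂ (Set.range ![x, y]) := by
        rw [Algebra.adjoin_range_eq_range_aeval]
        exact ⟨p, rfl⟩
      refine (Algebra.adjoin_le ?_ : Algebra.adjoin ℂ (Set.range ![x, y]) ≤
        (IntermediateField.adjoin ℂ ({x, y} : Set K)).toSubalgebra) h1
      rintro _ ⟨i, rfl⟩
      apply IntermediateField.subset_adjoin
      fin_cases i <;> simp
    rw [hf]
    exact div_mem (key r) (key s)
  have htop : IntermediateField.adjoin ℂ⟮x⟯ {y} = ⊤ := by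
    have h1 : (IntermediateField.adjoin ℂ⟮x⟯ {y}).restrictScalars ℂ = ⊤ := by
      rw [IntermediateField.adjoin_adjoin_left, Set.singleton_union, htop2]
    rw [eq_top_iff]
    intro f _
    have h2 : f ∈ (IntermediateField.adjoin ℂ⟮x⟯ {y}).restrictScalars ℂ := by rw [h1]; trivial
    exact h2
  have hfin : Module.finrank ℂ⟮x⟯ K ≤ 2 := by
    set q : ℂ⟮x⟯[X] := X ^ 2 - C (IntermediateField.AdjoinSimple.gen ℂ x ^ 3 +
      algebraMap ℂ ℂ⟮x⟯ a * IntermediateField.AdjoinSimple.gen ℂ x + algebraMap ℂ ℂ⟮x⟯ b) with hq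
    have hqm : q.Monic := monic_X_pow_sub_C _ two_ne_zero
    have hqy : aeval y q = 0 := by
      rw [hq, map_sub, map_pow, aeval_X, aeval_C, map_add, map_add, map_mul, map_pow,
        IntermediateField.AdjoinSimple.algebraMap_gen, hxy]
      rw [← IsScalarTower.algebraMap_apply, ← IsScalarTower.algebraMap_apply]
      ring
    have hint : IsIntegral ℂ⟮x⟯ y := ⟨q, hqm, hqy⟩
    have h2 := IntermediateField.adjoin.finrank hint
    rw [htop] at h2
    have h4 : Module.finrank ℂ⟮x⟯ (⊤ : IntermediateField ℂ⟮x⟯ K) = Module.finrank ℂ⟮x⟯ K :=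
      IntermediateField.topEquiv.toLinearEquiv.finrank_eq
    rw [← h4, h2]
    have h5 : (minpoly ℂ⟮x⟯ y).natDegree ≤ q.natDegree :=
      natDegree_le_of_dvd (minpoly.dvd _ _ hqy) hqm.ne_zero
    rwa [hq, natDegree_X_pow_sub_C] at h5
  have hhx : hgt ℂ x ≤ 2 := by
    rw [Pool.Agent.W603.PV.hgt_eq_finrank hx]
    exact_mod_cast hfin
  refine ⟨x, y, a, b, disc_ne hroot, hx, hxy, hind, hhx, ?_⟩
  have h1 := hgt_pow (k := ℂ) hy0 2
  have h2 := hgt_mvpoly (k := ℂ) (fun _ : Fin 1 => x) (MvPolynomial.X 0 ^ 3 +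
    MvPolynomial.C a * MvPolynomial.X 0 + MvPolynomial.C b)
  have h3 : MvPolynomial.aeval (fun _ : Fin 1 => x) ((MvPolynomial.X 0 ^ 3 +
      MvPolynomial.C a * MvPolynomial.X 0 + MvPolynomial.C b : MvPolynomial (Fin 1) ℂ)) = y ^ 2 := by
    rw [hxy]
    simp
  have h4 : (MvPolynomial.X 0 ^ 3 +
      MvPolynomial.C a * MvPolynomial.X 0 + MvPolynomial.C b :
        MvPolynomial (Fin 1) ℂ).totalDegree ≤ 3 := by
    refine (MvPolynomial.totalDegree_add _ _).trans (max_le ?_ ?_)
    · refine (MvPolynomial.totalDegree_add _ _).trans (max_le ?_ ?_)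
      · exact (MvPolynomial.totalDegree_pow _ _).trans (by simp)
      · refine (MvPolynomial.totalDegree_mul _ _).trans ?_
        simp
    · simp
  rw [h3, h1] at h2
  simp only [Finset.univ_unique, Finset.sum_const, Finset.card_singleton, one_smul] at h2
  have h5 : ((MvPolynomial.X 0 ^ 3 +
      MvPolynomial.C a * MvPolynomial.X 0 + MvPolynomial.C b :
        MvPolynomial (Fin 1) ℂ).totalDegree : ℤ) * hgt ℂ x ≤ 3 * hgt ℂ x :=
    mul_le_mul_of_nonneg_right (by exact_mod_cast h4) (hgt_nonneg _)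
  push_cast at h2
  linarith

/-- a function of bounded height on a curve of genus one -/
theorem rep_ell {x y : K} (hind : ∀ A B : ℂ[X], aeval x A + aeval x B * y = 0 → A = 0 ∧ B = 0)
    (hx : hgt ℂ x ≤ 2) (hy : hgt ℂ y ≤ 3) {A : ℕ} {u : K} (hu : hgt ℂ u ≤ A) :
    ∃ P Q R : ℂ[X], R ≠ 0 ∧ P.natDegree ≤ A + 2 ∧ Q.natDegree ≤ A + 2 ∧ R.natDegree ≤ A + 2 ∧
      aeval x R * u = aeval x P + aeval x Q * y := by
  obtain ⟨P, hP0, hPd, hP⟩ := rel (k := ℂ) x ![1, y, u] (A + 2) (by
    rw [Fin.sum_univ_three]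
    simp only [Matrix.cons_val_zero, Matrix.cons_val_one, Matrix.cons_val_two,
      Matrix.head_cons, Matrix.tail_cons]
    rw [hgt_one]
    have h1 : (((A + 2 : ℕ) : ℤ)) * hgt ℂ x ≤ ((A + 2 : ℕ) : ℤ) * 2 :=
      mul_le_mul_of_nonneg_left hx (by positivity)
    push_cast at h1 ⊢
    linarith)
  rw [Fin.sum_univ_three] at hP
  simp only [Matrix.cons_val_zero, Matrix.cons_val_one, Matrix.cons_val_two,
      Matrix.head_cons, Matrix.tail_cons, mul_one] at hP
  refine ⟨-P 0, -P 1, P 2, ?_, ?_, ?_, hPd 2, ?_⟩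
  · intro h2
    rw [h2, map_zero, zero_mul, add_zero] at hP
    obtain ⟨h3, h4⟩ := hind _ _ hP
    obtain ⟨j, hj⟩ := hP0
    fin_cases j
    · exact hj h3
    · exact hj h4
    · exact hj h2
  · rw [natDegree_neg]; exact hPd 0
  · rw [natDegree_neg]; exact hPd 1
  · rw [map_neg, map_neg]
    linear_combination hP

/-- a function of bounded height on the line -/
theorem rep_rat {t : K} (hgen : IntermediateField.adjoin ℂ {t} = ⊤) :
    Transcendental ℂ t ∧ ∀ (A : ℕ) (u : K), hgt ℂ u ≤ A →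
    ∃ P R : ℂ[X], R ≠ 0 ∧ P.natDegree ≤ A ∧ R.natDegree ≤ A ∧ aeval t R * u = aeval t P := by
  have ht : Transcendental ℂ t := by
    intro halg
    obtain ⟨f, hf⟩ := IsFF.exists_transcendental (k := ℂ) (K := K)
    apply hf
    have h1 : f ∈ IntermediateField.adjoin ℂ {t} := by rw [hgen]; trivial
    have h2 : Algebra.IsAlgebraic ℂ (IntermediateField.adjoin ℂ {t}) :=
      IntermediateField.isAlgebraic_adjoin_simple halg.isIntegral
    have h3 := h2.isAlgebraic (⟨f, h1⟩ : IntermediateField.adjoin ℂ {t})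
    exact h3.algebraMap
  have hfr : Module.finrank ℂ⟮t⟯ K = 1 := by
    rw [hgen]
    exact IntermediateField.finrank_top
  have hht : hgt ℂ t = 1 := by
    rw [Pool.Agent.W603.PV.hgt_eq_finrank ht, hfr]
    rfl
  refine ⟨ht, fun A u hu => ?_⟩
  obtain ⟨P, hP0, hPd, hP⟩ := rel (k := ℂ) t ![1, u] A (by
    rw [Fin.sum_univ_two]
    simp only [Matrix.cons_val_zero, Matrix.cons_val_one]
    rw [hgt_one, hht]
    push_cast
    linarith)
  rw [Fin.sum_univ_two] at hP
  simp only [Matrix.cons_val_zero, Matrix.cons_val_one, mul_one] at hP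
  refine ⟨-P 0, P 1, ?_, ?_, hPd 1, ?_⟩
  · intro h2
    rw [h2, map_zero, zero_mul, add_zero] at hP
    have h3 : P 0 = 0 := transcendental_iff.1 ht _ hP
    obtain ⟨j, hj⟩ := hP0
    fin_cases j
    · exact hj h3
    · exact hj h2
  · rw [natDegree_neg]; exact hPd 0
  · rw [map_neg]
    linear_combination hP

end Pool.Agent.J6H28.FM
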